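import Pool.Agent.Lib_MP_d5c33c_co.Proof

set_option autoImplicit false

namespace Pool.Agent.Results.MP_d5c33c_co.SpectrumBound

open Pool.Agent.Lib_MP_d5c33c_co

/-- **Q1 (positive answer).** For every coherent configuration `(X, S)` with `|X| = n ≥ 2`, every
eigenvalue of the matrix `O` is at least `n / (n - 1)`. -/
theorem result {X : Type*} [Fintype X] (C : CoherentConfiguration X)
    (hn : 2 ≤ Fintype.card X) (μ : ℝ)
    (hμ : Module.End.HasEigenvalue (Matrix.mulVecLin C.O) μ) :
    (Fintype.card X : ℝ) / ((Fintype.card X : ℝ) - 1) ≤ μ := by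
  obtain ⟨v, hv⟩ := hμ.exists_hasEigenvector
  refine C.eigenvalue_bound hn hv.2 (fun a => ?_)
  have h := hv.apply_eq_smul
  have h2 := congrFun h a
  rw [Matrix.mulVecLin_apply] at h2
  simpa [Matrix.mulVec, dotProduct] using h2

end Pool.Agent.Results.MP_d5c33c_co.SpectrumBound
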